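import Mathlib

set_option autoImplicit false

/-!
# Choosing `d` of finitely many functionals such that the others have small coordinates
-/

namespace Pool.Agent.Helper272_FD

open Matrix

theorem exists_frame {d n : ℕ} (u : Fin n → Fin d → ℝ)
    (hu : ∀ x : Fin d → ℝ, (∀ i, u i ⬝ᵥ x = 0) → x = 0) :
    ∃ σ : Fin d → Fin n, (Matrix.of fun j => u (σ j)).det ≠ 0 ∧
      ∀ r, ∃ a : Fin d → ℝ, (∀ j, |a j| ≤ 1) ∧ ∀ x : Fin d → ℝ,
        u r ⬝ᵥ x = ∑ j, a j * (u (σ j) ⬝ᵥ x) := by
  classical
  -- the functionals span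
  have hspan : Submodule.span ℝ (Set.range u) = ⊤ := by
    by_contra hne
    obtain ⟨f, hf0, hf⟩ := Submodule.exists_le_ker_of_lt_top _ (lt_top_iff_ne_top.2 hne)
    apply hf0
    have hfx : ∀ x : Fin d → ℝ, f x = x ⬝ᵥ (fun k => f (Pi.single k 1)) := by
      intro x
      conv_lhs => rw [pi_eq_sum_univ' x]
      rw [map_sum]
      simp only [map_smul, smul_eq_mul, dotProduct]
    have h0 : (fun k => f (Pi.single k 1)) = (0 : Fin d → ℝ) := by
      apply hu
      intro i
      rw [← hfx]
      exact hf (Submodule.subset_span ⟨i, rfl⟩)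
    refine LinearMap.ext fun x => ?_
    rw [hfx, h0, dotProduct_zero]
    rfl
  -- a choice with nonzero determinant
  have hex : ∃ τ : Fin d → Fin n, (Matrix.of fun j => u (τ j)).det ≠ 0 := by
    obtain ⟨f, h1, h2, h3⟩ := Submodule.exists_fun_fin_finrank_span_eq ℝ (Set.range u)
    have hfr : Module.finrank ℝ (Submodule.span ℝ (Set.range u)) = d := by
      rw [hspan, finrank_top, Module.finrank_fin_fun]
    choose g hg using h1
    refine ⟨fun j => g (Fin.cast hfr.symm j), ?_⟩
    have h4 : LinearIndependent ℝ (fun j : Fin d => u (g (Fin.cast hfr.symm j))) := by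
      have h5 : (fun j : Fin d => u (g (Fin.cast hfr.symm j))) = f ∘ (Fin.cast hfr.symm) := by
        funext j
        simp only [Function.comp_apply, hg]
      rw [h5]
      exact h3.comp _ (Fin.cast_injective _)
    have h6 : IsUnit (Matrix.of fun j : Fin d => u (g (Fin.cast hfr.symm j))) :=
      Matrix.linearIndependent_rows_iff_isUnit.1 h4
    exact ((Matrix.isUnit_iff_isUnit_det _).1 h6).ne_zero
  have : Nonempty (Fin d → Fin n) := ⟨hex.choose⟩
  obtain ⟨σ, hσ⟩ := Finite.exists_max fun σ : Fin d → Fin n => |(Matrix.of fun j => u (σ j)).det|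
  have hdet : (Matrix.of fun j => u (σ j)).det ≠ 0 := by
    obtain ⟨τ, hτ⟩ := hex
    intro h0
    have := hσ τ
    rw [h0, abs_zero] at this
    exact hτ (abs_eq_zero.1 (le_antisymm this (abs_nonneg _)))
  refine ⟨σ, hdet, fun r => ?_⟩
  set M : Matrix (Fin d) (Fin d) ℝ := Matrix.of fun j => u (σ j) with hM
  have hupd : ∀ j, (M.updateRow j (u r)) = Matrix.of fun k => u (Function.update σ j r k) := by
    intro j
    ext k l
    rw [Matrix.updateRow_apply, Matrix.of_apply, Function.update_apply]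
    split_ifs
    · rfl
    · rfl
  refine ⟨fun j => (M.updateRow j (u r)).det / M.det, fun j => ?_, fun x => ?_⟩
  · rw [abs_div, div_le_one (abs_pos.2 hdet), hupd]
    exact hσ _
  · have h1 := Matrix.mulVec_cramer Mᵀ (u r)
    have h2 : ∀ j, Matrix.cramer Mᵀ (u r) j = (M.updateRow j (u r)).det :=
      fun j => Matrix.cramer_transpose_apply M (u r) j
    have h3 : M.det • (u r) = Mᵀ *ᵥ fun j => (M.updateRow j (u r)).det := by
      rw [Matrix.det_transpose] at h1
      rw [← h1]
      congr 1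
      funext j
      exact h2 j
    have h4 : M.det * (u r ⬝ᵥ x) = ∑ j, (M.updateRow j (u r)).det * (u (σ j) ⬝ᵥ x) := by
      have h5 : M.det * (u r ⬝ᵥ x) = (M.det • u r) ⬝ᵥ x := by
        rw [smul_dotProduct, smul_eq_mul]
      rw [h5, h3, Matrix.mulVec_transpose, ← Matrix.dotProduct_mulVec]
      rfl
    have h6 : u r ⬝ᵥ x = (∑ j, (M.updateRow j (u r)).det * (u (σ j) ⬝ᵥ x)) / M.det := by
      rw [eq_div_iff hdet, ← h4]
      ring
    rw [h6, Finset.sum_div]
    apply Finset.sum_congr rfl
    intro j _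
    ring

/-- if the determinant is not zero then every vector of values is attained exactly once -/
theorem exists_point {d : ℕ} (w : Fin d → Fin d → ℝ) (h : (Matrix.of w).det ≠ 0)
    (c : Fin d → ℝ) : ∃ x : Fin d → ℝ, ∀ j, w j ⬝ᵥ x = c j := by
  have hu : IsUnit (Matrix.of w).det := isUnit_iff_ne_zero.2 h
  refine ⟨(Matrix.of w)⁻¹ *ᵥ c, fun j => ?_⟩
  have h1 : (Matrix.of w) *ᵥ ((Matrix.of w)⁻¹ *ᵥ c) = c := by
    rw [Matrix.mulVec_mulVec, Matrix.mul_nonsing_inv _ hu, Matrix.one_mulVec]
  exact congrFun h1 j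

theorem point_unique {d : ℕ} (w : Fin d → Fin d → ℝ) (h : (Matrix.of w).det ≠ 0)
    (x : Fin d → ℝ) (hx : ∀ j, w j ⬝ᵥ x = 0) : x = 0 := by
  by_contra hne
  apply h
  rw [← Matrix.exists_mulVec_eq_zero_iff]
  exact ⟨x, hne, funext hx⟩

/-- all but two of the functionals are among the chosen ones -/
theorem two_others {d : ℕ} {w : Fin (d + 2) → Fin d → ℝ} {σ : Fin d → Fin (d + 2)}
    (h : (Matrix.of fun j => w (σ j)).det ≠ 0) :
    ∃ p q : Fin (d + 2), ∀ i, (∃ j, i = σ j) ∨ i = p ∨ i = q := by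
  classical
  have hinj : Function.Injective σ := by
    intro j k hjk
    by_contra hne
    apply h
    exact Matrix.det_zero_of_row_eq hne (by funext l; simp only [Matrix.of_apply, hjk])
  have hcard : (Finset.univ \ Finset.univ.image σ).card = 2 := by
    rw [Finset.card_sdiff_of_subset (Finset.subset_univ _), Finset.card_image_of_injective _ hinj,
      Finset.card_univ, Finset.card_univ, Fintype.card_fin, Fintype.card_fin]
    omega
  obtain ⟨p, q, _, hpq⟩ := Finset.card_eq_two.1 hcard
  refine ⟨p, q, fun i => ?_⟩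
  by_cases hi : i ∈ Finset.univ.image σ
  · left
    obtain ⟨j, _, hj⟩ := Finset.mem_image.1 hi
    exact ⟨j, hj.symm⟩
  · right
    have : i ∈ Finset.univ \ Finset.univ.image σ := by simpa using hi
    rw [hpq] at this
    simpa using this

end Pool.Agent.Helper272_FD
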