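import Pool.Agent.Helper272_FD.B
import Pool.Agent.Helper272_FD.C
import Pool.Agent.TH84.HC.Cover

set_option autoImplicit false

/-!
# The illumination of a polytope given by `d + 2` slabs
-/

open Filter Topology

namespace Pool.Agent.Helper272_FD

open Pool.Agent.PZ871 (E)
open Pool.Agent.TH84.HC (CoveredBy small_int cover_of_illum extreme_dom)

variable {d : ℕ}

/-- an interior point at which two functionals are small -/
theorem exists_inner {K : Set (E d)} (hK : Convex ℝ K) (hi : (interior K).Nonempty)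
    (f g : E d →L[ℝ] ℝ) (k m α β : ℝ) (hf : ∀ x ∈ K, f x - k ≤ 1) (hg : ∀ x ∈ K, g x - m ≤ 1)
    (hP : ∃ P ∈ K, f P - k = -1) (hR : ∃ R ∈ K, g R - m = -1) (hα : 0 ≤ α) (hβ : 0 ≤ β)
    (hαβ : 0 < α + β) : ∃ z ∈ interior K, f z - k < α ∧ g z - m < β := by
  obtain ⟨P, hP, hfP⟩ := hP
  obtain ⟨R, hR, hgR⟩ := hR
  set α' := min α 1 with hα'
  set β' := min β 1 with hβ'
  have a1 : α' ≤ α := min_le_left _ _
  have a2 : α' ≤ 1 := min_le_right _ _
  have a3 : 0 ≤ α' := le_min hα zero_le_one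
  have b1 : β' ≤ β := min_le_left _ _
  have b2 : β' ≤ 1 := min_le_right _ _
  have b3 : 0 ≤ β' := le_min hβ zero_le_one
  have ab : 0 < α' + β' := by
    rcases hα.eq_or_lt with h | h
    · have : 0 < β' := lt_min (by linarith) one_pos
      linarith
    · have : 0 < α' := lt_min h one_pos
      linarith
  set l : ℝ := 1 / 2 + (β' - α') / 4 with hl
  have l0 : 0 ≤ l := by rw [hl]; linarith
  have l1 : l ≤ 1 := by rw [hl]; linarith
  set z := l • P + (1 - l) • R with hz
  have hzK : z ∈ K := hK hP hR l0 (by linarith) (by ring)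
  have fz : f z - k ≤ 1 - 2 * l := by
    have : f z = l * f P + (1 - l) * f R := by
      rw [hz, map_add, map_smul, map_smul, smul_eq_mul, smul_eq_mul]
    have h1 := hf R hR
    rw [this]
    nlinarith [mul_le_mul_of_nonneg_left h1 (by linarith : 0 ≤ 1 - l)]
  have gz : g z - m ≤ 2 * l - 1 := by
    have : g z = l * g P + (1 - l) * g R := by
      rw [hz, map_add, map_smul, map_smul, smul_eq_mul, smul_eq_mul]
    have h1 := hg P hP
    rw [this]
    nlinarith [mul_le_mul_of_nonneg_left h1 l0]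
  have h1 : f z - k < α := by
    rw [hl] at fz
    linarith
  have h2 : g z - m < β := by
    rw [hl] at gz
    linarith
  have hcl : z ∈ closure (interior K) := by
    rw [hK.closure_interior_eq_closure_of_nonempty_interior hi]
    exact subset_closure hzK
  have hopen : IsOpen {x : E d | f x - k < α ∧ g x - m < β} :=
    (isOpen_lt (f.continuous.sub continuous_const) continuous_const).inter
      (isOpen_lt (g.continuous.sub continuous_const) continuous_const)
  obtain ⟨y, hy1, hy2⟩ := mem_closure_iff.1 hcl _ hopen ⟨h1, h2⟩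
  exact ⟨y, hy2, hy1⟩

/-- an interior point is strictly below a nonzero functional's bound -/
theorem strict_int {K : Set (E d)} (f : E d →L[ℝ] ℝ) (hf : f ≠ 0) {M : ℝ}
    (h : ∀ x ∈ K, f x ≤ M) {z : E d} (hz : z ∈ interior K) : f z < M := by
  obtain ⟨v, hv⟩ : ∃ v, 0 < f v := by
    by_contra hcon
    push Not at hcon
    apply hf
    ext x
    have h1 := hcon x
    have h2 := hcon (-x)
    rw [map_neg] at h2
    have : f x = 0 := by linarith
    simpa using this
  obtain ⟨t, ht, hzt⟩ := small_int v hz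
  have h1 := h _ (interior_subset hzt)
  rw [map_add, map_smul, smul_eq_mul] at h1
  have := mul_pos ht hv
  linarith

/-- a direction which is decreasing for all active constraints illuminates -/
theorem illum_of {n : ℕ} {K : Set (E d)} {f : Fin n → (E d →L[ℝ] ℝ)} {c : Fin n → ℝ}
    (hK : K = {x | ∀ i, |f i x - c i| ≤ 1}) {x v : E d} (hx : x ∈ K)
    (h1 : ∀ i, f i x - c i = 1 → f i v < 0) (h2 : ∀ i, f i x - c i = -1 → 0 < f i v) :
    ∃ t : ℝ, 0 < t ∧ x + t • v ∈ interior K := by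
  have hopen : IsOpen {z : E d | ∀ i, |f i z - c i| < 1} := by
    rw [Set.ofPred_forall]
    exact isOpen_iInter_of_finite fun i => isOpen_lt (by fun_prop) continuous_const
  have hsub : {z : E d | ∀ i, |f i z - c i| < 1} ⊆ interior K := by
    apply interior_maximal _ hopen
    rw [hK]
    exact fun z hz i => (hz i).le
  rw [hK] at hx
  have hev : ∀ᶠ t in 𝓝[>] (0:ℝ), ∀ i, |f i (x + t • v) - c i| < 1 := by
    rw [Filter.eventually_all]
    intro i
    have hxi := abs_le.1 (hx i)
    have hcont : Continuous fun t : ℝ => f i (x + t • v) - c i := by fun_prop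
    have e : ∀ t : ℝ, f i (x + t • v) - c i = (f i x - c i) + t * f i v := by
      intro t
      rw [map_add, map_smul, smul_eq_mul]
      ring
    have hup : ∀ᶠ t in 𝓝[>] (0:ℝ), f i (x + t • v) - c i < 1 := by
      rcases hxi.2.eq_or_lt with h | h
      · filter_upwards [self_mem_nhdsWithin] with t ht
        rw [e, h]
        have := mul_pos (show (0:ℝ) < t from ht) (neg_pos.2 (h1 i h))
        linarith
      · have h3 : ∀ᶠ t in 𝓝 (0:ℝ), f i (x + t • v) - c i < 1 := by
          apply hcont.continuousAt.eventually_lt continuousAt_const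
          simpa using h
        exact h3.filter_mono nhdsWithin_le_nhds
    have hlo : ∀ᶠ t in 𝓝[>] (0:ℝ), -1 < f i (x + t • v) - c i := by
      rcases hxi.1.eq_or_lt with h | h
      · filter_upwards [self_mem_nhdsWithin] with t ht
        rw [e, ← h]
        have := mul_pos (show (0:ℝ) < t from ht) (h2 i h.symm)
        linarith
      · have h3 : ∀ᶠ t in 𝓝 (0:ℝ), -1 < f i (x + t • v) - c i := by
          apply ContinuousAt.eventually_lt continuousAt_const hcont.continuousAt
          simpa using h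
        exact h3.filter_mono nhdsWithin_le_nhds
    filter_upwards [hup, hlo] with t h3 h4
    exact abs_lt.2 ⟨h4, h3⟩
  obtain ⟨t, ht1, ht2⟩ := (hev.and self_mem_nhdsWithin).exists
  exact ⟨t, ht2, hsub ht1⟩

/-- the signs with which the two extra functionals are served at a vertex of the cube, where
they have the values `A`, `B` -/
def Rule (s1 s2 A B : ℝ) : Prop :=
  (0 < s1 * A ∧ 0 < s2 * B) ∨ (A = 0 ∧ 0 < s2 * B ∧ s1 = s2) ∨ (B = 0 ∧ 0 < s1 * A ∧ s2 = -s1)

theorem Rule.left {s1 A : ℝ} (hs : s1 = 1 ∨ s1 = -1) (B : ℝ) (h : 0 < s1 * A) :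
    ∃ s2 : ℝ, (s2 = 1 ∨ s2 = -1) ∧ Rule s1 s2 A B := by
  rcases lt_trichotomy B 0 with hB | hB | hB
  · exact ⟨-1, Or.inr rfl, Or.inl ⟨h, by linarith⟩⟩
  · refine ⟨-s1, ?_, Or.inr (Or.inr ⟨hB, h, rfl⟩)⟩
    rcases hs with rfl | rfl
    · right; rfl
    · left; norm_num
  · exact ⟨1, Or.inl rfl, Or.inl ⟨h, by linarith⟩⟩

theorem Rule.right {s2 B : ℝ} (hs : s2 = 1 ∨ s2 = -1) (A : ℝ) (h : 0 < s2 * B) :
    ∃ s1 : ℝ, (s1 = 1 ∨ s1 = -1) ∧ Rule s1 s2 A B := by
  rcases lt_trichotomy A 0 with hA | hA | hA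
  · exact ⟨-1, Or.inr rfl, Or.inl ⟨by linarith, h⟩⟩
  · exact ⟨s2, hs, Or.inr (Or.inl ⟨hA, h, rfl⟩)⟩
  · exact ⟨1, Or.inl rfl, Or.inl ⟨by linarith, h⟩⟩

/-- the rule determines the signs -/
theorem Rule.unique {s1 s2 s1' s2' A B : ℝ} (hs1 : s1 = 1 ∨ s1 = -1) (hs2 : s2 = 1 ∨ s2 = -1)
    (hs1' : s1' = 1 ∨ s1' = -1) (hs2' : s2' = 1 ∨ s2' = -1) (h : Rule s1 s2 A B)
    (h' : Rule s1' s2' A B) : s1 = s1' ∧ s2 = s2' := by
  rcases hs1 with rfl | rfl <;> rcases hs2 with rfl | rfl <;> rcases hs1' with rfl | rfl <;>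
    rcases hs2' with rfl | rfl <;>
    rcases h with ⟨h1, h2⟩ | ⟨h1, h2, h3⟩ | ⟨h1, h2, h3⟩ <;>
    rcases h' with ⟨h1', h2'⟩ | ⟨h1', h2', h3'⟩ | ⟨h1', h2', h3'⟩ <;>
    first
      | exact ⟨rfl, rfl⟩
      | (exfalso; linarith)

end Pool.Agent.Helper272_FD
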