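import Mathlib

set_option autoImplicit false

/-!
# Rounding two free coordinates for two extra constraints
-/

namespace Pool.Agent.Helper272_FD

/-- the two linear forms `r`, `s` at the rounding `η`: both larger than `-1` -/
def Good (r1 r2 s1 s2 e1 e2 : ℝ) : Prop := -1 < r1 * e1 + r2 * e2 ∧ -1 < s1 * e1 + s2 * e2

/-- the case where the first form fails at the nearest rounding -/
theorem round_aux {p1 p2 r1 r2 s1 s2 : ℝ} (hp1 : 0 < p1) (hp1' : p1 ≤ 1) (hp2 : 0 < p2)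
    (hp2' : p2 ≤ 1) (hr1 : |r1| ≤ 1) (hr2 : |r2| ≤ 1) (hs1 : |s1| ≤ 1) (hs2 : |s2| ≤ 1)
    (hf : r1 * p1 + r2 * p2 ≤ -1) :
    (∃ e1 e2 : ℝ, (e1 = p1 ∨ e1 = p1 - 2) ∧ (e2 = p2 ∨ e2 = p2 - 2) ∧ Good r1 r2 s1 s2 e1 e2) ∨
    ((∃ e1 e2 : ℝ, (e1 = p1 ∨ e1 = p1 - 2) ∧ (e2 = p2 ∨ e2 = p2 - 2) ∧
        r1 * e1 + r2 * e2 = -1 ∧ -1 < s1 * e1 + s2 * e2) ∧
      (∃ e1 e2 : ℝ, (e1 = p1 ∨ e1 = p1 - 2) ∧ (e2 = p2 ∨ e2 = p2 - 2) ∧
        -1 < r1 * e1 + r2 * e2 ∧ s1 * e1 + s2 * e2 = -1)) := by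
  rw [abs_le] at hr1 hr2 hs1 hs2
  have hr1n : r1 ≤ 0 := by
    by_contra h
    push Not at h
    nlinarith [mul_pos h hp1, mul_le_mul_of_nonneg_right hr2.1 hp2.le]
  have hr2n : r2 ≤ 0 := by
    by_contra h
    push Not at h
    nlinarith [mul_pos h hp2, mul_le_mul_of_nonneg_right hr1.1 hp1.le]
  rcases hr1n.eq_or_lt with h1 | h1
  · -- `r1 = 0`
    subst h1
    have hr2' : r2 = -1 ∧ p2 = 1 := by
      have : r2 * p2 ≤ -1 := by linarith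
      constructor
      · nlinarith [mul_nonneg (by linarith : 0 ≤ -r2) (by linarith : 0 ≤ 1 - p2)]
      · nlinarith [mul_nonneg (by linarith : 0 ≤ r2 + 1) hp2.le]
    obtain ⟨rfl, rfl⟩ := hr2'
    by_cases ha : -1 < s1 * p1 + s2 * (1 - 2)
    · exact Or.inl ⟨p1, 1 - 2, Or.inl rfl, Or.inr rfl, by constructor <;> linarith⟩
    by_cases hb : -1 < s1 * (p1 - 2) + s2 * (1 - 2)
    · exact Or.inl ⟨p1 - 2, 1 - 2, Or.inr rfl, Or.inr rfl, by constructor <;> linarith⟩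
    push Not at ha hb
    right
    have hs2' : s2 = 1 := by
      by_cases h : 0 ≤ s1
      · nlinarith [mul_nonneg h hp1.le]
      · push Not at h
        nlinarith [mul_pos (by linarith : 0 < -s1) (by linarith : 0 < 2 - p1)]
    subst hs2'
    have hs1' : s1 = 0 := by
      have a1 : s1 * p1 ≤ 0 := by linarith
      have a2 : 0 ≤ s1 * (2 - p1) := by linarith
      have b1 : s1 ≤ 0 := by
        by_contra h
        push Not at h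
        nlinarith [mul_pos h hp1]
      have b2 : 0 ≤ s1 := by
        by_contra h
        push Not at h
        nlinarith [mul_pos (by linarith : 0 < -s1) (by linarith : 0 < 2 - p1)]
      linarith
    subst hs1'
    exact ⟨⟨p1, 1, Or.inl rfl, Or.inl rfl, by ring, by linarith⟩,
      ⟨p1, 1 - 2, Or.inl rfl, Or.inr rfl, by linarith, by ring⟩⟩
  rcases hr2n.eq_or_lt with h2 | h2
  · -- `r2 = 0`
    subst h2
    have hr1' : r1 = -1 ∧ p1 = 1 := by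
      have : r1 * p1 ≤ -1 := by linarith
      constructor
      · nlinarith [mul_nonneg (by linarith : 0 ≤ -r1) (by linarith : 0 ≤ 1 - p1)]
      · nlinarith [mul_nonneg (by linarith : 0 ≤ r1 + 1) hp1.le]
    obtain ⟨rfl, rfl⟩ := hr1'
    by_cases ha : -1 < s1 * (1 - 2) + s2 * p2
    · exact Or.inl ⟨1 - 2, p2, Or.inr rfl, Or.inl rfl, by constructor <;> linarith⟩
    by_cases hb : -1 < s1 * (1 - 2) + s2 * (p2 - 2)
    · exact Or.inl ⟨1 - 2, p2 - 2, Or.inr rfl, Or.inr rfl, by constructor <;> linarith⟩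
    push Not at ha hb
    right
    have hs1' : s1 = 1 := by
      by_cases h : 0 ≤ s2
      · nlinarith [mul_nonneg h hp2.le]
      · push Not at h
        nlinarith [mul_pos (by linarith : 0 < -s2) (by linarith : 0 < 2 - p2)]
    subst hs1'
    have hs2' : s2 = 0 := by
      have a1 : s2 * p2 ≤ 0 := by linarith
      have a2 : 0 ≤ s2 * (2 - p2) := by linarith
      have b1 : s2 ≤ 0 := by
        by_contra h
        push Not at h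
        nlinarith [mul_pos h hp2]
      have b2 : 0 ≤ s2 := by
        by_contra h
        push Not at h
        nlinarith [mul_pos (by linarith : 0 < -s2) (by linarith : 0 < 2 - p2)]
      linarith
    subst hs2'
    exact ⟨⟨1, p2, Or.inl rfl, Or.inl rfl, by ring, by linarith⟩,
      ⟨1 - 2, p2, Or.inr rfl, Or.inl rfl, by linarith, by ring⟩⟩
  -- both negative
  have g1 : -1 < r1 * (p1 - 2) + r2 * p2 := by
    nlinarith [mul_pos (by linarith : 0 < -r1) (by linarith : 0 < 2 - p1),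
      mul_le_mul_of_nonneg_right hr2.1 hp2.le]
  have g2 : -1 < r1 * p1 + r2 * (p2 - 2) := by
    nlinarith [mul_pos (by linarith : 0 < -r2) (by linarith : 0 < 2 - p2),
      mul_le_mul_of_nonneg_right hr1.1 hp1.le]
  have g3 : -1 < r1 * (p1 - 2) + r2 * (p2 - 2) := by
    nlinarith [mul_pos (by linarith : 0 < -r2) (by linarith : 0 < 2 - p2),
      mul_pos (by linarith : 0 < -r1) (by linarith : 0 < 2 - p1)]
  by_cases c1 : -1 < s1 * (p1 - 2) + s2 * p2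
  · exact Or.inl ⟨p1 - 2, p2, Or.inr rfl, Or.inl rfl, g1, c1⟩
  by_cases c2 : -1 < s1 * p1 + s2 * (p2 - 2)
  · exact Or.inl ⟨p1, p2 - 2, Or.inl rfl, Or.inr rfl, g2, c2⟩
  push Not at c1 c2
  right
  have hsum : 1 ≤ s1 * (1 - p1) + s2 * (1 - p2) := by nlinarith
  have k1 : s1 * (1 - p1) ≤ 1 - p1 := by nlinarith
  have k2 : s2 * (1 - p2) ≤ 1 - p2 := by nlinarith
  have hle : p1 + p2 ≤ 1 := by linarith
  have m1 : -r1 * p1 ≤ p1 := by nlinarith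
  have m2 : -r2 * p2 ≤ p2 := by nlinarith
  have hge : 1 ≤ p1 + p2 := by linarith
  have hp : p2 = 1 - p1 := by linarith
  subst hp
  have e1 : r1 = -1 := by
    have : -r1 * p1 = p1 := by linarith
    have h3 : (r1 + 1) * p1 = 0 := by linarith
    rcases mul_eq_zero.1 h3 with h | h
    · linarith
    · exact absurd h hp1.ne'
  have e2 : r2 = -1 := by
    have : -r2 * (1 - p1) = 1 - p1 := by linarith
    have h3 : (r2 + 1) * (1 - p1) = 0 := by linarith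
    rcases mul_eq_zero.1 h3 with h | h
    · linarith
    · exact absurd h hp2.ne'
  have e3 : s1 = 1 := by
    have h3 : (s1 - 1) * (1 - p1) = 0 := by linarith
    rcases mul_eq_zero.1 h3 with h | h
    · linarith
    · exact absurd h hp2.ne'
  have e4 : s2 = 1 := by
    have h3 : (s2 - 1) * p1 = 0 := by nlinarith
    rcases mul_eq_zero.1 h3 with h | h
    · linarith
    · exact absurd h hp1.ne'
  subst e1 e2 e3 e4
  exact ⟨⟨p1, 1 - p1, Or.inl rfl, Or.inl rfl, by ring, by linarith⟩,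
    ⟨p1 - 2, 1 - p1, Or.inr rfl, Or.inl rfl, by linarith, by ring⟩⟩

/-- the statement of the rounding lemma for the shifts `p1`, `p1 - 2` and `p2`, `p2 - 2` -/
theorem round_pos {p1 p2 r1 r2 s1 s2 : ℝ} (hp1 : 0 < p1) (hp1' : p1 ≤ 1) (hp2 : 0 < p2)
    (hp2' : p2 ≤ 1) (hr1 : |r1| ≤ 1) (hr2 : |r2| ≤ 1) (hs1 : |s1| ≤ 1) (hs2 : |s2| ≤ 1) :
    (∃ e1 e2 : ℝ, (e1 = p1 ∨ e1 = p1 - 2) ∧ (e2 = p2 ∨ e2 = p2 - 2) ∧ Good r1 r2 s1 s2 e1 e2) ∨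
    ((∃ e1 e2 : ℝ, (e1 = p1 ∨ e1 = p1 - 2) ∧ (e2 = p2 ∨ e2 = p2 - 2) ∧
        r1 * e1 + r2 * e2 = -1 ∧ -1 < s1 * e1 + s2 * e2) ∧
      (∃ e1 e2 : ℝ, (e1 = p1 ∨ e1 = p1 - 2) ∧ (e2 = p2 ∨ e2 = p2 - 2) ∧
        -1 < r1 * e1 + r2 * e2 ∧ s1 * e1 + s2 * e2 = -1)) := by
  by_cases h : Good r1 r2 s1 s2 p1 p2
  · exact Or.inl ⟨p1, p2, Or.inl rfl, Or.inl rfl, h⟩
  unfold Good at h
  rw [not_and_or] at h
  push Not at h
  rcases h with h | h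
  · exact round_aux hp1 hp1' hp2 hp2' hr1 hr2 hs1 hs2 h
  · rcases round_aux hp1 hp1' hp2 hp2' hs1 hs2 hr1 hr2 h with h' | ⟨⟨a, b, ha, hb, h1, h2⟩,
      ⟨c, d, hc, hd, h3, h4⟩⟩
    · obtain ⟨a, b, ha, hb, h1, h2⟩ := h'
      exact Or.inl ⟨a, b, ha, hb, h2, h1⟩
    · exact Or.inr ⟨⟨c, d, hc, hd, h4, h3⟩, ⟨a, b, ha, hb, h2, h1⟩⟩

/-- **Rounding two coordinates.** `y1`, `y2` are rounded to signs `t1`, `t2`. -/
theorem round_two {y1 y2 r1 r2 s1 s2 : ℝ} (hy1 : |y1| < 1) (hy2 : |y2| < 1) (hr1 : |r1| ≤ 1)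
    (hr2 : |r2| ≤ 1) (hs1 : |s1| ≤ 1) (hs2 : |s2| ≤ 1) :
    (∃ t1 t2 : ℝ, (t1 = 1 ∨ t1 = -1) ∧ (t2 = 1 ∨ t2 = -1) ∧
        -1 < r1 * (t1 - y1) + r2 * (t2 - y2) ∧ -1 < s1 * (t1 - y1) + s2 * (t2 - y2)) ∨
    ((∃ t1 t2 : ℝ, (t1 = 1 ∨ t1 = -1) ∧ (t2 = 1 ∨ t2 = -1) ∧
        r1 * (t1 - y1) + r2 * (t2 - y2) = -1 ∧ -1 < s1 * (t1 - y1) + s2 * (t2 - y2)) ∧
      (∃ t1 t2 : ℝ, (t1 = 1 ∨ t1 = -1) ∧ (t2 = 1 ∨ t2 = -1) ∧
        -1 < r1 * (t1 - y1) + r2 * (t2 - y2) ∧ s1 * (t1 - y1) + s2 * (t2 - y2) = -1)) := by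
  -- signs of `y1`, `y2`
  have sgn : ∀ y : ℝ, |y| < 1 → ∃ c : ℝ, (c = 1 ∨ c = -1) ∧ 0 < 1 - c * y ∧ 1 - c * y ≤ 1 := by
    intro y hy
    rw [abs_lt] at hy
    rcases le_total 0 y with h | h
    · exact ⟨1, Or.inl rfl, by linarith, by linarith⟩
    · exact ⟨-1, Or.inr rfl, by linarith, by linarith⟩
  obtain ⟨c1, hc1, k1, k1'⟩ := sgn y1 hy1
  obtain ⟨c2, hc2, k2, k2'⟩ := sgn y2 hy2
  have hcc : ∀ c : ℝ, (c = 1 ∨ c = -1) → c * c = 1 := by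
    rintro c (rfl | rfl) <;> norm_num
  have habs : ∀ c r : ℝ, (c = 1 ∨ c = -1) → |r| ≤ 1 → |r * c| ≤ 1 := by
    rintro c r (rfl | rfl) hr
    · simpa using hr
    · simpa using hr
  have key := round_pos k1 k1' k2 k2' (habs c1 r1 hc1 hr1) (habs c2 r2 hc2 hr2)
    (habs c1 s1 hc1 hs1) (habs c2 s2 hc2 hs2)
  -- translate a shift into a sign
  have tr : ∀ c y e : ℝ, (c = 1 ∨ c = -1) → (e = 1 - c * y ∨ e = 1 - c * y - 2) →
      ∃ t : ℝ, (t = 1 ∨ t = -1) ∧ ∀ r : ℝ, r * c * e = r * (t - y) := by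
    rintro c y e (rfl | rfl) (rfl | rfl)
    · exact ⟨1, Or.inl rfl, fun r => by ring⟩
    · exact ⟨-1, Or.inr rfl, fun r => by ring⟩
    · exact ⟨-1, Or.inr rfl, fun r => by ring⟩
    · exact ⟨1, Or.inl rfl, fun r => by ring⟩
  rcases key with ⟨e1, e2, h1, h2, h3, h4⟩ | ⟨⟨e1, e2, h1, h2, h3, h4⟩, ⟨f1, f2, h5, h6, h7, h8⟩⟩
  · obtain ⟨t1, ht1, T1⟩ := tr c1 y1 e1 hc1 h1
    obtain ⟨t2, ht2, T2⟩ := tr c2 y2 e2 hc2 h2
    rw [T1, T2] at h3 h4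
    exact Or.inl ⟨t1, t2, ht1, ht2, h3, h4⟩
  · obtain ⟨t1, ht1, T1⟩ := tr c1 y1 e1 hc1 h1
    obtain ⟨t2, ht2, T2⟩ := tr c2 y2 e2 hc2 h2
    rw [T1, T2] at h3 h4
    obtain ⟨t1', ht1', T1'⟩ := tr c1 y1 f1 hc1 h5
    obtain ⟨t2', ht2', T2'⟩ := tr c2 y2 f2 hc2 h6
    rw [T1', T2'] at h7 h8
    exact Or.inr ⟨⟨t1, t2, ht1, ht2, h3, h4⟩, ⟨t1', t2', ht1', ht2', h7, h8⟩⟩

end Pool.Agent.Helper272_FD
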