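import Pool.Agent.Helper272_FD.A

set_option autoImplicit false

/-!
# Rounding a point of the cube to a vertex of its face
-/

namespace Pool.Agent.Helper272_FD

open Finset

variable {d : ℕ}

/-- `t` is a vertex of the smallest face of the cube `[-1,1]^d` that contains `y` -/
def VertexOf (y t : Fin d → ℝ) : Prop :=
  (∀ j, t j = 1 ∨ t j = -1) ∧ ∀ j, |y j| = 1 → t j = y j

theorem pm_of_abs {z : ℝ} (h : |z| = 1) : z = 1 ∨ z = -1 := (abs_eq zero_le_one).1 h

/-- change of `y` in the coordinates of absolute value less than one -/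
theorem sum_off (c y t : Fin d → ℝ) (F : Finset (Fin d)) (h : ∀ j, j ∉ F → t j = y j) :
    ∑ j, c j * (t j - y j) = ∑ j ∈ F, c j * (t j - y j) := by
  symm
  apply Finset.sum_subset (Finset.subset_univ F)
  intro j _ hj
  rw [h j hj]
  ring

/-- rounding for one functional -/
theorem pick_one (a y : Fin d → ℝ) (hy : ∀ j, |y j| ≤ 1) :
    ∃ t : Fin d → ℝ, VertexOf y t ∧ 0 ≤ ∑ j, a j * (t j - y j) := by
  classical
  refine ⟨fun j => if |y j| = 1 then y j else if 0 ≤ a j then 1 else -1, ⟨?_, ?_⟩, ?_⟩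
  · intro j
    by_cases h : |y j| = 1
    · simp only [h, if_true]
      exact pm_of_abs h
    · simp only [h, if_false]
      by_cases h' : 0 ≤ a j
      · simp [h']
      · simp [h']
  · intro j h
    simp [h]
  · apply Finset.sum_nonneg
    intro j _
    by_cases h : |y j| = 1
    · simp [h]
    · simp only [h, if_false]
      have hj := abs_le.1 (hy j)
      by_cases h' : 0 ≤ a j
      · simp only [h', if_true]
        exact mul_nonneg h' (by linarith)
      · simp only [h', if_false]
        push Not at h'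
        nlinarith

/-- rounding for two functionals, when at most two coordinates are free -/
theorem pick_two (a b y : Fin d → ℝ) (ha : ∀ j, |a j| ≤ 1) (hb : ∀ j, |b j| ≤ 1)
    (hy : ∀ j, |y j| ≤ 1) (hF : (univ.filter fun j => |y j| < 1).card ≤ 2) :
    (∃ t : Fin d → ℝ, VertexOf y t ∧ -1 < ∑ j, a j * (t j - y j) ∧
        -1 < ∑ j, b j * (t j - y j)) ∨
    ((∃ t : Fin d → ℝ, VertexOf y t ∧ ∑ j, a j * (t j - y j) = -1 ∧
        -1 < ∑ j, b j * (t j - y j)) ∧
      (∃ t : Fin d → ℝ, VertexOf y t ∧ -1 < ∑ j, a j * (t j - y j) ∧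
        ∑ j, b j * (t j - y j) = -1)) := by
  classical
  set F := univ.filter fun j => |y j| < 1 with hFdef
  have hmem : ∀ j, j ∈ F ↔ |y j| < 1 := by intro j; simp [hFdef]
  have hoff : ∀ j, j ∉ F → |y j| = 1 := by
    intro j hj
    rw [hmem] at hj
    exact le_antisymm (hy j) (not_lt.1 hj)
  -- vertices from values on `F`
  have mk : ∀ v : Fin d → ℝ, (∀ j ∈ F, v j = 1 ∨ v j = -1) →
      VertexOf y (fun j => if j ∈ F then v j else y j) := by
    intro v hv
    refine ⟨fun j => ?_, fun j hj => ?_⟩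
    · by_cases h : j ∈ F
      · simp only [h, if_true]; exact hv j h
      · simp only [h, if_false]; exact pm_of_abs (hoff j h)
    · have h : j ∉ F := by
        rw [hmem]
        exact not_lt.2 hj.ge
      simp only [h, if_false]
  have sm : ∀ (c v : Fin d → ℝ), ∑ j, c j * ((fun j => if j ∈ F then v j else y j) j - y j) =
      ∑ j ∈ F, c j * (v j - y j) := by
    intro c v
    rw [sum_off c y _ F]
    · apply Finset.sum_congr rfl
      intro j hj
      simp only [hj, if_true]
    · intro j hj
      simp only [hj, if_false]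
  rcases Nat.lt_or_ge F.card 1 with h0 | h0
  · -- no free coordinate
    have hFe : F = ∅ := Finset.card_eq_zero.1 (by omega)
    left
    refine ⟨_, mk (fun _ => 1) (fun _ _ => Or.inl rfl), ?_, ?_⟩
    · rw [sm, hFe, Finset.sum_empty]; norm_num
    · rw [sm, hFe, Finset.sum_empty]; norm_num
  rcases Nat.lt_or_ge F.card 2 with h1 | h1
  · -- one free coordinate
    obtain ⟨i, hi⟩ := Finset.card_eq_one.1 (by omega : F.card = 1)
    have hyi : |y i| < 1 := (hmem i).1 (by rw [hi]; exact Finset.mem_singleton_self i)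
    have key := round_two (y1 := y i) (y2 := 0) (r1 := a i) (r2 := 0) (s1 := b i) (s2 := 0)
      hyi (by norm_num) (ha i) (by norm_num) (hb i) (by norm_num)
    have sm1 : ∀ (c : Fin d → ℝ) (v : ℝ), ∑ j, c j * ((fun j => if j ∈ F then v else y j) j - y j) =
        c i * (v - y i) := by
      intro c v
      have := sm c (fun _ => v)
      rw [this, hi, Finset.sum_singleton]
    rcases key with ⟨t1, t2, h2, h3, h4, h5⟩ | ⟨⟨t1, t2, h2, h3, h4, h5⟩, ⟨t1', t2', h2', h3', h4', h5'⟩⟩
    · left
      refine ⟨_, mk (fun _ => t1) (fun _ _ => h2), ?_, ?_⟩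
      · rw [sm1]; linarith
      · rw [sm1]; linarith
    · right
      refine ⟨⟨_, mk (fun _ => t1) (fun _ _ => h2), ?_, ?_⟩, ⟨_, mk (fun _ => t1') (fun _ _ => h2'), ?_, ?_⟩⟩
      · rw [sm1]; linarith
      · rw [sm1]; linarith
      · rw [sm1]; linarith
      · rw [sm1]; linarith
  · -- two free coordinates
    obtain ⟨i, k, hik, hF2⟩ := Finset.card_eq_two.1 (by omega : F.card = 2)
    have hyi : |y i| < 1 := (hmem i).1 (by rw [hF2]; simp)
    have hyk : |y k| < 1 := (hmem k).1 (by rw [hF2]; simp)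
    have key := round_two (y1 := y i) (y2 := y k) (r1 := a i) (r2 := a k) (s1 := b i) (s2 := b k)
      hyi hyk (ha i) (ha k) (hb i) (hb k)
    have sm2 : ∀ (c : Fin d → ℝ) (v w : ℝ),
        ∑ j, c j * ((fun j => if j ∈ F then (fun j => if j = i then v else w) j else y j) j - y j) =
        c i * (v - y i) + c k * (w - y k) := by
      intro c v w
      have := sm c (fun j => if j = i then v else w)
      rw [this, hF2, Finset.sum_pair hik]
      simp [hik.symm]
    have mk2 : ∀ v w : ℝ, (v = 1 ∨ v = -1) → (w = 1 ∨ w = -1) →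
        ∀ j ∈ F, (fun j => if j = i then v else w) j = 1 ∨ (fun j => if j = i then v else w) j = -1 := by
      intro v w hv hw j _
      by_cases h : j = i
      · simp only [h, if_true]; exact hv
      · simp only [h, if_false]; exact hw
    rcases key with ⟨t1, t2, h2, h3, h4, h5⟩ | ⟨⟨t1, t2, h2, h3, h4, h5⟩, ⟨t1', t2', h2', h3', h4', h5'⟩⟩
    · left
      refine ⟨_, mk _ (mk2 t1 t2 h2 h3), ?_, ?_⟩
      · rw [sm2]; exact h4
      · rw [sm2]; exact h5
    · right
      refine ⟨⟨_, mk _ (mk2 t1 t2 h2 h3), ?_, ?_⟩, ⟨_, mk _ (mk2 t1' t2' h2' h3'), ?_, ?_⟩⟩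
      · rw [sm2]; exact h4
      · rw [sm2]; exact h5
      · rw [sm2]; exact h4'
      · rw [sm2]; exact h5'

end Pool.Agent.Helper272_FD
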