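import Pool.Agent.Helper272_FD.D

set_option autoImplicit false

/-!
# The covering theorem for normalised slabs
-/

open Filter Topology Finset

namespace Pool.Agent.Helper272_FD

open Pool.Agent.PZ871 (E)
open Pool.Agent.TH84.HC (CoveredBy small_int cover_of_illum extreme_dom)

variable {d : ℕ}

/-- `d + 2` slabs, `d` of which are chosen as coordinates (`σ`) -/
structure Frame (f : Fin (d + 2) → (E d →L[ℝ] ℝ)) (c : Fin (d + 2) → ℝ) (K : Set (E d))
    (σ : Fin d → Fin (d + 2)) (p q : Fin (d + 2)) (a b : Fin d → ℝ) : Prop where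
  ha : ∀ j, |a j| ≤ 1
  hb : ∀ j, |b j| ≤ 1
  hp : ∀ x, f p x = ∑ j, a j * f (σ j) x
  hq : ∀ x, f q x = ∑ j, b j * f (σ j) x
  hpt : ∀ w : Fin d → ℝ, ∃ x, ∀ j, f (σ j) x = w j
  h0 : ∀ x, (∀ j, f (σ j) x = 0) → x = 0
  hall : ∀ i, (∃ j, i = σ j) ∨ i = p ∨ i = q
  hK : K = {x | ∀ i, |f i x - c i| ≤ 1}
  hc : IsCompact K
  hi : (interior K).Nonempty
  hmax : ∀ i, ∃ x ∈ K, f i x - c i = 1
  hmin : ∀ i, ∃ x ∈ K, f i x - c i = -1

namespace Frame

variable {f : Fin (d + 2) → (E d →L[ℝ] ℝ)} {c : Fin (d + 2) → ℝ} {K : Set (E d)}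
  {σ : Fin d → Fin (d + 2)} {p q : Fin (d + 2)} {a b : Fin d → ℝ}

theorem le (H : Frame f c K σ p q a b) {x : E d} (hx : x ∈ K) (i : Fin (d + 2)) :
    |f i x - c i| ≤ 1 := by
  have h := H.hK
  rw [h] at hx
  exact hx i

theorem ne (H : Frame f c K σ p q a b) (i : Fin (d + 2)) : f i ≠ 0 := by
  intro h
  obtain ⟨x, _, hx⟩ := H.hmax i
  obtain ⟨y, _, hy⟩ := H.hmin i
  rw [h] at hx hy
  simp only [_root_.zero_apply] at hx hy
  linarith

theorem convex (H : Frame f c K σ p q a b) : Convex ℝ K := by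
  rw [H.hK]
  intro x hx y hy s t hs ht hst i
  rw [map_add, map_smul, map_smul, smul_eq_mul, smul_eq_mul]
  have h1 := abs_le.1 (hx i)
  have h2 := abs_le.1 (hy i)
  have ht' : t = 1 - s := by linarith
  rw [abs_le]
  subst ht'
  constructor
  · nlinarith [mul_le_mul_of_nonneg_left h1.1 hs, mul_le_mul_of_nonneg_left h2.1 ht]
  · nlinarith [mul_le_mul_of_nonneg_left h1.2 hs, mul_le_mul_of_nonneg_left h2.2 ht]

theorem int_lt (H : Frame f c K σ p q a b) {z : E d} (hz : z ∈ interior K) (i : Fin (d + 2)) :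
    |f i z - c i| < 1 := by
  have h1 : f i z < 1 + c i := strict_int (f i) (H.ne i) (fun x hx => by
    have := (abs_le.1 (H.le hx i)).2
    linarith) hz
  have h2 : (-f i) z < 1 - c i := strict_int (-f i) (neg_ne_zero.2 (H.ne i)) (fun x hx => by
    have := (abs_le.1 (H.le hx i)).1
    simp only [_root_.neg_apply]
    linarith) hz
  simp only [_root_.neg_apply] at h2
  exact abs_lt.2 ⟨by linarith, by linarith⟩

/-- an extreme point has at most two free coordinates -/
theorem free_card (H : Frame f c K σ p q a b) {x : E d} (hx : x ∈ Set.extremePoints ℝ K) :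
    (univ.filter fun j => |f (σ j) x - c (σ j)| < 1).card ≤ 2 := by
  classical
  by_contra hcon
  push Not at hcon
  set F := univ.filter fun j => |f (σ j) x - c (σ j)| < 1 with hF
  rw [mem_extremePoints] at hx
  obtain ⟨hxK, hext⟩ := hx
  -- a nonzero vector on `F` annihilated by `a` and `b`
  let L : (F → ℝ) →ₗ[ℝ] ℝ × ℝ :=
    (∑ j : F, a j • LinearMap.proj j).prod (∑ j : F, b j • LinearMap.proj j)
  have hker : LinearMap.ker L ≠ ⊥ := by
    apply LinearMap.ker_ne_bot_of_finrank_lt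
    rw [Module.finrank_prod, Module.finrank_self, Module.finrank_fintype_fun_eq_card,
      Fintype.card_coe]
    exact hcon
  obtain ⟨h, hh, hh0⟩ := Submodule.exists_mem_ne_zero_of_ne_bot hker
  have hL : L h = 0 := hh
  have hLa : ∑ j : F, a j * h j = 0 := by
    have := congrArg Prod.fst hL
    simpa [L, LinearMap.sum_apply] using this
  have hLb : ∑ j : F, b j * h j = 0 := by
    have := congrArg Prod.snd hL
    simpa [L, LinearMap.sum_apply] using this
  obtain ⟨w, hw⟩ := H.hpt fun j => if hj : j ∈ F then h ⟨j, hj⟩ else 0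
  have hsum : ∀ e : Fin d → ℝ, ∑ j, e j * f (σ j) w = ∑ j : F, e j * h j := by
    intro e
    rw [← Finset.sum_subset (Finset.subset_univ F)]
    · rw [← Finset.sum_coe_sort F]
      apply Finset.sum_congr rfl
      intro j _
      rw [hw]
      simp
    · intro j _ hj
      rw [hw]
      simp [hj]
  have hpw : f p w = 0 := by rw [H.hp, hsum, hLa]
  have hqw : f q w = 0 := by rw [H.hq, hsum, hLb]
  have hw0 : w ≠ 0 := by
    intro h1
    apply hh0
    funext j
    have := hw j
    rw [h1, map_zero] at this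
    simpa using this.symm
  -- small multiples of `w` stay in `K`
  have hev : ∀ s : ℝ, (s = 1 ∨ s = -1) → ∀ᶠ t in 𝓝[>] (0:ℝ), x + t • (s • w) ∈ K := by
    intro s _
    have hall : ∀ᶠ t in 𝓝[>] (0:ℝ), ∀ j, |f (σ j) (x + t • (s • w)) - c (σ j)| ≤ 1 := by
      rw [Filter.eventually_all]
      intro j
      by_cases hj : j ∈ F
      · have hj' : |f (σ j) x - c (σ j)| < 1 := by simpa [hF] using hj
        have hcont : Continuous fun t : ℝ => |f (σ j) (x + t • (s • w)) - c (σ j)| := by fun_prop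
        have h3 : ∀ᶠ t in 𝓝 (0:ℝ), |f (σ j) (x + t • (s • w)) - c (σ j)| < 1 := by
          apply hcont.continuousAt.eventually_lt continuousAt_const
          simpa using hj'
        exact (h3.filter_mono nhdsWithin_le_nhds).mono fun t ht => ht.le
      · refine Eventually.of_forall fun t => ?_
        have e : f (σ j) w = 0 := by rw [hw]; simp [hj]
        rw [map_add, map_smul, map_smul, e, smul_zero, smul_zero, add_zero]
        exact H.le hxK (σ j)
    filter_upwards [hall] with t ht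
    rw [H.hK]
    intro i
    rcases H.hall i with ⟨j, rfl⟩ | rfl | rfl
    · exact ht j
    · rw [map_add, map_smul, map_smul, hpw, smul_zero, smul_zero, add_zero]
      exact H.le hxK _
    · rw [map_add, map_smul, map_smul, hqw, smul_zero, smul_zero, add_zero]
      exact H.le hxK _
  obtain ⟨t, ⟨h1, h2⟩, ht⟩ :=
    (((hev 1 (Or.inl rfl)).and (hev (-1) (Or.inr rfl))).and self_mem_nhdsWithin).exists
  have ht' : (0:ℝ) < t := ht
  have h4 := (hext _ h1 _ h2 ⟨1 / 2, 1 / 2, by norm_num, by norm_num, by norm_num, by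
    rw [← smul_add]
    have : x + t • (1:ℝ) • w + (x + t • (-1:ℝ) • w) = (2:ℝ) • x := by
      rw [one_smul, neg_one_smul, two_smul, smul_neg]; abel
    rw [this, smul_smul]
    norm_num⟩).1
  have h5 : t • w = 0 := by
    have : x + t • (1:ℝ) • w = x + 0 := by rw [h4, add_zero]
    rw [one_smul] at this
    exact add_left_cancel this
  rcases smul_eq_zero.1 h5 with h6 | h6
  · exact ht'.ne' h6
  · exact hw0 h6

/-- the direction that belongs to the vertex `t` of the cube -/
theorem exists_dir (H : Frame f c K σ p q a b) (t : Fin d → ℝ) (ht : ∀ j, t j = 1 ∨ t j = -1)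
    {X : E d} (hX : ∀ j, f (σ j) X = c (σ j) + t j) :
    ∃ v : E d, (∀ j, t j * f (σ j) v < 0) ∧ ∀ s1 s2 : ℝ, (s1 = 1 ∨ s1 = -1) →
      (s2 = 1 ∨ s2 = -1) → Rule s1 s2 (f p X - c p) (f q X - c q) →
      s1 * f p v < 0 ∧ s2 * f q v < 0 := by
  -- the coordinates are right for every interior point
  have hcoord : ∀ z ∈ interior K, ∀ j, t j * f (σ j) (z - X) < 0 := by
    intro z hz j
    have h1 := abs_lt.1 (H.int_lt hz (σ j))
    rw [map_sub, hX]
    rcases ht j with h | h
    · rw [h]; linarith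
    · rw [h]; linarith
  by_cases hex : ∃ s1 s2 : ℝ, (s1 = 1 ∨ s1 = -1) ∧ (s2 = 1 ∨ s2 = -1) ∧
      Rule s1 s2 (f p X - c p) (f q X - c q)
  · obtain ⟨s1, s2, hs1, hs2, hR⟩ := hex
    have bd : ∀ s : ℝ, (s = 1 ∨ s = -1) → ∀ i, ∀ x ∈ K, (s • f i) x - s * c i ≤ 1 := by
      intro s hs i x hx
      have h1 := abs_le.1 (H.le hx i)
      rw [_root_.smul_apply, smul_eq_mul]
      rcases hs with rfl | rfl
      · linarith
      · linarith
    have at' : ∀ s : ℝ, (s = 1 ∨ s = -1) → ∀ i, ∃ x ∈ K, (s • f i) x - s * c i = -1 := by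
      intro s hs i
      rcases hs with rfl | rfl
      · obtain ⟨x, hx, h⟩ := H.hmin i
        exact ⟨x, hx, by rw [_root_.smul_apply, smul_eq_mul]; linarith⟩
      · obtain ⟨x, hx, h⟩ := H.hmax i
        exact ⟨x, hx, by rw [_root_.smul_apply, smul_eq_mul]; linarith⟩
    have hnn : 0 ≤ s1 * (f p X - c p) ∧ 0 ≤ s2 * (f q X - c q) ∧
        0 < s1 * (f p X - c p) + s2 * (f q X - c q) := by
      rcases hR with ⟨h1, h2⟩ | ⟨h1, h2, _⟩ | ⟨h1, h2, _⟩
      · exact ⟨h1.le, h2.le, by linarith⟩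
      · rw [h1, mul_zero]
        exact ⟨le_rfl, h2.le, by linarith⟩
      · rw [h1, mul_zero]
        exact ⟨h2.le, le_rfl, by linarith⟩
    obtain ⟨z, hz, hz1, hz2⟩ := exists_inner H.convex H.hi (s1 • f p) (s2 • f q) (s1 * c p)
      (s2 * c q) _ _ (bd s1 hs1 p) (bd s2 hs2 q) (at' s1 hs1 p) (at' s2 hs2 q) hnn.1 hnn.2.1
      hnn.2.2
    refine ⟨z - X, hcoord z hz, fun s1' s2' hs1' hs2' hR' => ?_⟩
    obtain ⟨rfl, rfl⟩ := Rule.unique hs1 hs2 hs1' hs2' hR hR'
    rw [_root_.smul_apply, smul_eq_mul] at hz1 hz2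
    rw [map_sub, map_sub]
    constructor
    · linarith
    · linarith
  · push Not at hex
    obtain ⟨z, hz⟩ := H.hi
    exact ⟨z - X, hcoord z hz, fun s1 s2 hs1 hs2 hR => absurd hR (hex s1 s2 hs1 hs2)⟩

end Frame

end Pool.Agent.Helper272_FD
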