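import Pool.Agent.Helper272_FD.F

set_option autoImplicit false

/-!
# The covering theorem for `d + 2` slabs
-/

open Filter Topology Finset

namespace Pool.Agent.Helper272_FD

open Pool.Agent.PZ871 (E)
open Pool.Agent.TH84.HC (CoveredBy small_int cover_of_illum extreme_dom)

variable {d : ℕ}

/-- a vertex of the face of `y` at which the rule serves the active extra functionals -/
theorem serve (a b y : Fin d → ℝ) (ha : ∀ j, |a j| ≤ 1) (hb : ∀ j, |b j| ≤ 1)
    (hy : ∀ j, |y j| ≤ 1) (hF : (univ.filter fun j => |y j| < 1).card ≤ 2) {ap aq : ℝ}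
    (hap : |ap| ≤ 1) (haq : |aq| ≤ 1) :
    ∃ t : Fin d → ℝ, VertexOf y t ∧ ((|ap| < 1 ∧ |aq| < 1) ∨ ∃ s1 s2 : ℝ, (s1 = 1 ∨ s1 = -1) ∧
      (s2 = 1 ∨ s2 = -1) ∧ Rule s1 s2 (ap + ∑ j, a j * (t j - y j))
        (aq + ∑ j, b j * (t j - y j)) ∧ (|ap| = 1 → s1 = ap) ∧ (|aq| = 1 → s2 = aq)) := by
  have hsc : ∀ (s : ℝ) (e t : Fin d → ℝ), ∑ j, (s * e j) * (t j - y j) =
      s * ∑ j, e j * (t j - y j) := by
    intro s e t
    rw [Finset.mul_sum]
    exact Finset.sum_congr rfl fun j _ => by ring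
  have hsq : ∀ s : ℝ, |s| = 1 → s * s = 1 := by
    intro s hs
    rcases pm_of_abs hs with rfl | rfl <;> norm_num
  rcases hap.lt_or_eq with h1 | h1
  · rcases haq.lt_or_eq with h2 | h2
    · obtain ⟨t, ht, _⟩ := pick_one (fun _ => 0) y hy
      exact ⟨t, ht, Or.inl ⟨h1, h2⟩⟩
    · obtain ⟨t, ht, h3⟩ := pick_one (fun j => aq * b j) y hy
      rw [hsc] at h3
      have h4 : 0 < aq * (aq + ∑ j, b j * (t j - y j)) := by
        rw [mul_add, hsq aq h2]; linarith
      obtain ⟨s1, hs1, hR⟩ := Rule.right (pm_of_abs h2) (ap + ∑ j, a j * (t j - y j)) h4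
      exact ⟨t, ht, Or.inr ⟨s1, aq, hs1, pm_of_abs h2, hR, fun h => absurd h h1.ne, fun _ => rfl⟩⟩
  · rcases haq.lt_or_eq with h2 | h2
    · obtain ⟨t, ht, h3⟩ := pick_one (fun j => ap * a j) y hy
      rw [hsc] at h3
      have h4 : 0 < ap * (ap + ∑ j, a j * (t j - y j)) := by
        rw [mul_add, hsq ap h1]; linarith
      obtain ⟨s2, hs2, hR⟩ := Rule.left (pm_of_abs h1) (aq + ∑ j, b j * (t j - y j)) h4
      exact ⟨t, ht, Or.inr ⟨ap, s2, pm_of_abs h1, hs2, hR, fun _ => rfl, fun h => absurd h h2.ne⟩⟩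
    · have hA : ∀ j, |ap * a j| ≤ 1 := fun j => by rw [abs_mul, h1, one_mul]; exact ha j
      have hB : ∀ j, |aq * b j| ≤ 1 := fun j => by rw [abs_mul, h2, one_mul]; exact hb j
      rcases pick_two (fun j => ap * a j) (fun j => aq * b j) y hA hB hy hF with
        ⟨t, ht, h3, h4⟩ | ⟨⟨t, ht, h3, h4⟩, ⟨t', ht', h3', h4'⟩⟩
      · rw [hsc] at h3 h4
        refine ⟨t, ht, Or.inr ⟨ap, aq, pm_of_abs h1, pm_of_abs h2, Or.inl ⟨?_, ?_⟩,
          fun _ => rfl, fun _ => rfl⟩⟩
        · rw [mul_add, hsq ap h1]; linarith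
        · rw [mul_add, hsq aq h2]; linarith
      · rw [hsc] at h3 h4 h3' h4'
        have hne : ∀ s r : ℝ, |s| = 1 → s * r = 0 → r = 0 := by
          intro s r hs h
          rcases mul_eq_zero.1 h with h | h
          · rw [h, abs_zero] at hs
            norm_num at hs
          · exact h
        by_cases heq : ap = aq
        · refine ⟨t, ht, Or.inr ⟨ap, aq, pm_of_abs h1, pm_of_abs h2,
            Or.inr (Or.inl ⟨hne ap _ h1 ?_, ?_, heq⟩), fun _ => rfl, fun _ => rfl⟩⟩
          · rw [mul_add, hsq ap h1]; linarith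
          · rw [mul_add, hsq aq h2]; linarith
        · have heq' : aq = -ap := by
            rcases pm_of_abs h1 with h5 | h5 <;> rcases pm_of_abs h2 with h6 | h6
            · exact absurd (h5.trans h6.symm) heq
            · rw [h5, h6]
            · rw [h5, h6]; norm_num
            · exact absurd (h5.trans h6.symm) heq
          refine ⟨t', ht', Or.inr ⟨ap, aq, pm_of_abs h1, pm_of_abs h2,
            Or.inr (Or.inr ⟨hne aq _ h2 ?_, ?_, heq'⟩), fun _ => rfl, fun _ => rfl⟩⟩
          · rw [mul_add, hsq aq h2]; linarith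
          · rw [mul_add, hsq ap h1]; linarith

/-- **The covering theorem** for normalised slabs. -/
theorem Frame.cover {f : Fin (d + 2) → (E d →L[ℝ] ℝ)} {c : Fin (d + 2) → ℝ} {K : Set (E d)}
    {σ : Fin d → Fin (d + 2)} {p q : Fin (d + 2)} {a b : Fin d → ℝ}
    (H : Frame f c K σ p q a b) : CoveredBy ((2 : ℝ) ^ d) K := by
  classical
  let sg : (Fin d → Bool) → Fin d → ℝ := fun ε j => if ε j then 1 else -1
  have hsg : ∀ ε j, sg ε j = 1 ∨ sg ε j = -1 := by
    intro ε j
    by_cases h : ε j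
    · left; simp [sg, h]
    · right; simp [sg, h]
  choose X hX using fun ε : Fin d → Bool => H.hpt fun j => c (σ j) + sg ε j
  choose v hv using fun ε : Fin d → Bool => H.exists_dir (sg ε) (hsg ε) (hX ε)
  let U : Finset (E d) := univ.image v
  have hcard : (U.card : ℝ) ≤ (2 : ℝ) ^ d := by
    have h1 : U.card ≤ (univ : Finset (Fin d → Bool)).card := Finset.card_image_le
    rw [Finset.card_univ, Fintype.card_fun, Fintype.card_bool, Fintype.card_fin] at h1
    exact_mod_cast h1
  have hU : U.Nonempty := ⟨v fun _ => true, Finset.mem_image_of_mem _ (Finset.mem_univ _)⟩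
  have hext : ∀ x ∈ Set.extremePoints ℝ K, ∃ u ∈ U, ∃ t : ℝ, 0 < t ∧ x + t • u ∈ interior K := by
    intro x hx
    have hxK : x ∈ K := (mem_extremePoints.1 hx).1
    obtain ⟨t, ht, hs⟩ := serve a b (fun j => f (σ j) x - c (σ j)) H.ha H.hb
      (fun j => H.le hxK (σ j)) (H.free_card hx) (H.le hxK p) (H.le hxK q)
    -- the sign vector
    obtain ⟨ε, hε⟩ : ∃ ε : Fin d → Bool, sg ε = t := by
      refine ⟨fun j => decide (t j = 1), ?_⟩
      funext j
      rcases ht.1 j with h | h
      · simp [sg, h]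
      · simp [sg, h]
        norm_num
    obtain ⟨hv1, hv2⟩ := hv ε
    have hA : f p (X ε) - c p = (f p x - c p) + ∑ j, a j * (t j - (f (σ j) x - c (σ j))) := by
      rw [H.hp, H.hp, ← hε]
      have : ∑ j, a j * (sg ε j - (f (σ j) x - c (σ j))) =
          ∑ j, a j * f (σ j) (X ε) - ∑ j, a j * f (σ j) x := by
        rw [← Finset.sum_sub_distrib]
        apply Finset.sum_congr rfl
        intro j _
        rw [hX]
        ring
      rw [this]
      ring
    have hB : f q (X ε) - c q = (f q x - c q) + ∑ j, b j * (t j - (f (σ j) x - c (σ j))) := by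
      rw [H.hq, H.hq, ← hε]
      have : ∑ j, b j * (sg ε j - (f (σ j) x - c (σ j))) =
          ∑ j, b j * f (σ j) (X ε) - ∑ j, b j * f (σ j) x := by
        rw [← Finset.sum_sub_distrib]
        apply Finset.sum_congr rfl
        intro j _
        rw [hX]
        ring
      rw [this]
      ring
    have hpq : (|f p x - c p| = 1 → (f p x - c p) * f p (v ε) < 0) ∧
        (|f q x - c q| = 1 → (f q x - c q) * f q (v ε) < 0) := by
      rcases hs with ⟨h1, h2⟩ | ⟨s1, s2, hs1, hs2, hR, h1, h2⟩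
      · exact ⟨fun h => absurd h h1.ne, fun h => absurd h h2.ne⟩
      · rw [← hA, ← hB] at hR
        obtain ⟨h3, h4⟩ := hv2 s1 s2 hs1 hs2 hR
        exact ⟨fun h => by rw [← h1 h]; exact h3, fun h => by rw [← h2 h]; exact h4⟩
    refine ⟨v ε, Finset.mem_image_of_mem _ (Finset.mem_univ _), illum_of H.hK hxK ?_ ?_⟩
    · intro i hi
      rcases H.hall i with ⟨j, rfl⟩ | rfl | rfl
      · have h1 := ht.2 j (by simp only; rw [hi, abs_one])
        simp only at h1
        have h2 := hv1 j
        rw [hε, h1, hi, one_mul] at h2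
        exact h2
      · have := hpq.1 (by rw [hi, abs_one])
        rw [hi, one_mul] at this
        exact this
      · have := hpq.2 (by rw [hi, abs_one])
        rw [hi, one_mul] at this
        exact this
    · intro i hi
      rcases H.hall i with ⟨j, rfl⟩ | rfl | rfl
      · have h1 := ht.2 j (by simp only; rw [hi, abs_neg, abs_one])
        simp only at h1
        have h2 := hv1 j
        rw [hε, h1, hi] at h2
        linarith
      · have := hpq.1 (by rw [hi, abs_neg, abs_one])
        rw [hi] at this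
        linarith
      · have := hpq.2 (by rw [hi, abs_neg, abs_one])
        rw [hi] at this
        linarith
  have hfr : ∀ x ∈ frontier K, ∃ u ∈ U, ∃ t : ℝ, 0 < t ∧ x + t • u ∈ interior K := by
    intro x hx
    obtain ⟨w, hw, hw2⟩ := extreme_dom H.convex H.hc H.hi hx
    obtain ⟨u, hu, hu2⟩ := hext w hw
    exact ⟨u, hu, hw2 u hu2⟩
  obtain ⟨T, hT, hT2⟩ := cover_of_illum H.convex H.hc U hU hfr
  exact ⟨T, hT.trans hcard, hT2⟩

end Pool.Agent.Helper272_FD
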