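import Pool.Agent.Helper272_FD.G

set_option autoImplicit false

/-!
# Convex bodies whose facets have at most `d + 2` directions
-/

open Filter Topology Finset

namespace Pool.Agent.Helper272_FD

open Pool.Agent.PZ871 (E)
open Pool.Agent.TH84.HC (CoveredBy)

variable {d : ℕ}

theorem inner_dot (w x : E d) : inner ℝ w x = (fun k => w k) ⬝ᵥ fun k => x k := by
  rw [PiLp.inner_apply, dotProduct]
  apply Finset.sum_congr rfl
  intro k _
  simp only [RCLike.inner_apply, conj_trivial]
  ring

/-- **The covering theorem**: intersections of half-spaces whose normals lie on `d + 2` lines. -/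
theorem cover_directions (hd : 1 ≤ d) {κ : Type*} (n : κ → E d) (b : κ → ℝ)
    (w : Fin (d + 2) → E d) (hn : ∀ k, ∃ (i : Fin (d + 2)) (s : ℝ), n k = s • w i) {K : Set (E d)}
    (hK : K = {x | ∀ k, inner ℝ (n k) x ≤ b k}) (hb : Bornology.IsBounded K)
    (hi : (interior K).Nonempty) : CoveredBy ((2 : ℝ) ^ d) K := by
  classical
  obtain ⟨z0, hz0⟩ := hi
  have hz0K : z0 ∈ K := interior_subset hz0
  have hmemK : ∀ x, x ∈ K ↔ ∀ k, inner ℝ (n k) x ≤ b k := by
    intro x; rw [hK]; rfl
  have hclosed : IsClosed K := by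
    rw [hK, Set.ofPred_forall]
    exact isClosed_iInter fun k => isClosed_le (by fun_prop) continuous_const
  have hc : IsCompact K := Metric.isCompact_of_isClosed_isBounded hclosed hb
  -- no line in `K`
  have hline : ∀ x : E d, (∀ t : ℝ, z0 + t • x ∈ K) → x = 0 := by
    intro x hx
    obtain ⟨R, hR⟩ := hb.exists_norm_le
    by_contra hne
    have hpos : 0 < ‖x‖ := norm_pos_iff.2 hne
    have hR0 : 0 ≤ R := (norm_nonneg z0).trans (hR z0 hz0K)
    have h1 := hR _ (hx ((R + ‖z0‖ + 1) / ‖x‖))
    have h2 : ‖((R + ‖z0‖ + 1) / ‖x‖) • x‖ = R + ‖z0‖ + 1 := by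
      rw [norm_smul, Real.norm_eq_abs, abs_of_nonneg (by positivity), div_mul_cancel₀ _ hpos.ne']
    have h3 : ‖((R + ‖z0‖ + 1) / ‖x‖) • x‖ ≤ ‖z0 + ((R + ‖z0‖ + 1) / ‖x‖) • x‖ + ‖z0‖ := by
      have := norm_sub_le (z0 + ((R + ‖z0‖ + 1) / ‖x‖) • x) z0
      rwa [add_sub_cancel_left] at this
    linarith
  -- some direction is not zero
  obtain ⟨k0, hk0⟩ : ∃ i, w i ≠ 0 := by
    by_contra hcon
    push Not at hcon
    have hn0 : ∀ k, n k = 0 := by
      intro k
      obtain ⟨i, s, h⟩ := hn k
      rw [h, hcon i, smul_zero]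
    have h1 : (EuclideanSpace.single (⟨0, hd⟩ : Fin d) (1:ℝ) : E d) = 0 := by
      apply hline
      intro t
      rw [hmemK]
      intro k
      rw [hn0 k, inner_zero_left]
      have := (hmemK z0).1 hz0K k
      rwa [hn0 k, inner_zero_left] at this
    have h2 : ‖(EuclideanSpace.single (⟨0, hd⟩ : Fin d) (1:ℝ) : E d)‖ = 1 := by simp
    rw [h1, norm_zero] at h2
    exact zero_ne_one h2
  let W : Fin (d + 2) → E d := fun i => if w i = 0 then w k0 else w i
  have hW0 : ∀ i, W i ≠ 0 := by
    intro i
    by_cases h : w i = 0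
    · simp only [W, h, if_true]; exact hk0
    · simp only [W, h, if_false]; exact h
  -- extreme values
  have hmx : ∀ i, ∃ P ∈ K, ∀ x ∈ K, inner ℝ (W i) x ≤ inner ℝ (W i) P := by
    intro i
    obtain ⟨P, hP, hP2⟩ := hc.exists_isMaxOn ⟨z0, hz0K⟩
      (f := fun x => inner ℝ (W i) x) (by fun_prop)
    exact ⟨P, hP, fun x hx => hP2 hx⟩
  have hmn : ∀ i, ∃ Q ∈ K, ∀ x ∈ K, inner ℝ (W i) Q ≤ inner ℝ (W i) x := by
    intro i
    obtain ⟨P, hP, hP2⟩ := hc.exists_isMinOn ⟨z0, hz0K⟩
      (f := fun x => inner ℝ (W i) x) (by fun_prop)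
    exact ⟨P, hP, fun x hx => hP2 hx⟩
  choose P hPK hP using hmx
  choose Q hQK hQ using hmn
  have hlt : ∀ i, inner ℝ (W i) (Q i) < inner ℝ (W i) (P i) := by
    intro i
    have h1 : (innerSL ℝ (W i)) z0 < inner ℝ (W i) (P i) := by
      apply strict_int (innerSL ℝ (W i)) _ (fun x hx => hP i x hx) hz0
      intro h
      apply hW0 i
      have h2 : (innerSL ℝ (W i)) (W i) = 0 := by rw [h]; rfl
      rw [innerSL_apply_apply] at h2
      exact inner_self_eq_zero.1 h2
    rw [innerSL_apply_apply] at h1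
    exact lt_of_le_of_lt (hQ i z0 hz0K) h1
  let δ : Fin (d + 2) → ℝ := fun i => inner ℝ (W i) (P i) - inner ℝ (W i) (Q i)
  have hδ : ∀ i, 0 < δ i := fun i => sub_pos.2 (hlt i)
  let f : Fin (d + 2) → (E d →L[ℝ] ℝ) := fun i => (2 / δ i) • innerSL ℝ (W i)
  let c : Fin (d + 2) → ℝ := fun i => (inner ℝ (W i) (P i) + inner ℝ (W i) (Q i)) / δ i
  have hf : ∀ i x, f i x = 2 / δ i * inner ℝ (W i) x := by
    intro i x
    simp only [f, _root_.smul_apply, innerSL_apply_apply, smul_eq_mul]
  have hfc : ∀ i x, f i x - c i =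
      (2 * inner ℝ (W i) x - (inner ℝ (W i) (P i) + inner ℝ (W i) (Q i))) / δ i := by
    intro i x
    rw [hf]
    simp only [c]
    ring
  have hKf : K = {x | ∀ i, |f i x - c i| ≤ 1} := by
    ext x
    constructor
    · intro hx i
      rw [hfc, abs_le, le_div_iff₀ (hδ i), div_le_one (hδ i)]
      have h1 := hP i x hx
      have h2 := hQ i x hx
      simp only [δ]
      constructor <;> linarith
    · intro hx
      rw [hmemK]
      intro k
      obtain ⟨i, s, h⟩ := hn k
      by_cases hw : w i = 0
      · have h1 := (hmemK z0).1 hz0K k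
        rw [h, hw, smul_zero, inner_zero_left] at h1 ⊢
        exact h1
      · have hWi : W i = w i := by simp only [W, hw, if_false]
        have h1 := hx i
        rw [hfc, abs_le, le_div_iff₀ (hδ i), div_le_one (hδ i)] at h1
        simp only [δ] at h1
        have h2 := (hmemK (P i)).1 (hPK i) k
        have h3 := (hmemK (Q i)).1 (hQK i) k
        rw [h, ← hWi, real_inner_smul_left] at h2 h3 ⊢
        rcases le_total 0 s with hs | hs
        · have h4 : inner ℝ (W i) x ≤ inner ℝ (W i) (P i) := by linarith [h1.2]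
          exact (mul_le_mul_of_nonneg_left h4 hs).trans h2
        · have h4 : inner ℝ (W i) (Q i) ≤ inner ℝ (W i) x := by linarith [h1.1]
          exact (mul_le_mul_of_nonpos_left h4 hs).trans h3
  -- coordinates
  let U : Fin (d + 2) → Fin d → ℝ := fun i k => 2 / δ i * W i k
  have hU : ∀ i (x : E d), f i x = U i ⬝ᵥ fun k => x k := by
    intro i x
    rw [hf, inner_dot, dotProduct, dotProduct, Finset.mul_sum]
    apply Finset.sum_congr rfl
    intro k _
    simp only [U]
    ring
  have hUx : ∀ i (x : Fin d → ℝ), f i (WithLp.toLp 2 x) = U i ⬝ᵥ x := by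
    intro i x
    rw [hU]
  obtain ⟨σ, hdet, hcoef⟩ := exists_frame U (by
    intro x hx
    have h1 : (WithLp.toLp 2 x : E d) = 0 := by
      apply hline
      intro t
      rw [hKf]
      intro i
      have hfx : f i (WithLp.toLp 2 x) = 0 := by rw [hUx]; exact hx i
      rw [map_add, map_smul, hfx, smul_zero, add_zero]
      have := hz0K
      rw [hKf] at this
      exact this i
    have h2 := congrArg (WithLp.ofLp) h1
    simpa using h2)
  obtain ⟨p, q, hpq⟩ := two_others hdet
  obtain ⟨a, ha, ha2⟩ := hcoef p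
  obtain ⟨b', hb', hb2⟩ := hcoef q
  have H : Frame f c K σ p q a b' :=
    { ha := ha
      hb := hb'
      hp := by
        intro x
        simp only [hU]
        exact ha2 _
      hq := by
        intro x
        simp only [hU]
        exact hb2 _
      hpt := by
        intro v
        obtain ⟨x, hx⟩ := exists_point (fun j => U (σ j)) hdet v
        exact ⟨WithLp.toLp 2 x, fun j => by rw [hUx]; exact hx j⟩
      h0 := by
        intro x hx
        have h1 : (fun k => x k) = 0 := point_unique (fun j => U (σ j)) hdet _ (fun j => by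
          rw [← hU]; exact hx j)
        ext k
        exact congrFun h1 k
      hall := hpq
      hK := hKf
      hc := hc
      hi := ⟨z0, hz0⟩
      hmax := by
        intro i
        refine ⟨P i, hPK i, ?_⟩
        rw [hfc, div_eq_one_iff_eq (hδ i).ne']
        simp only [δ]
        ring
      hmin := by
        intro i
        refine ⟨Q i, hQK i, ?_⟩
        rw [hfc, div_eq_iff (hδ i).ne']
        simp only [δ]
        ring }
  exact H.cover

end Pool.Agent.Helper272_FD
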